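import Mathlib
import Pool.Agent.KS6_47.Del.DelB

namespace Pool.Agent.KS6_47.Del.Cube
open Finset Pool.Agent.KS6_47.Del.DelA

/-- The Delannoy polynomial evaluated at an integer. -/
def D (n : ℕ) (x : ℤ) : ℤ :=
  ∑ k ∈ Finset.range (n + 1), (n.choose k : ℤ) * ((n + k).choose k : ℤ) * x ^ k

def dd (k : ℕ) : ℤ := ((2 * k).choose k : ℤ)

theorem D_eq (k M : ℕ) (h : k < M) (x : ℤ) : D k x = ∑ i ∈ range M, phi i k * x ^ i := by
  unfold D
  refine Finset.sum_subset (range_subset_range.mpr h) fun i _ hi => ?_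
  rw [Nat.choose_eq_zero_of_lt (show k < i by simpa using hi)]; simp

theorem sq_expand (k M : ℕ) (h : k < M) (u : ℕ → ℤ) :
    (∑ i ∈ range M, phi i k * u i) ^ 2
      = ∑ s ∈ range M, phi s k * ∑ i ∈ range M, ∑ j ∈ range M, cc i j s * (u i * u j) := by
  rw [pow_two, Finset.sum_mul_sum]
  simp only [Finset.mul_sum]
  rw [Finset.sum_comm (s := range M) (t := range M)
    (f := fun s i => ∑ j ∈ range M, phi s k * (cc i j s * (u i * u j)))]
  refine Finset.sum_congr rfl fun i _ => ?_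
  rw [Finset.sum_comm]
  refine Finset.sum_congr rfl fun j _ => ?_
  rw [show phi i k * u i * (phi j k * u j) = phi i k * phi j k * (u i * u j) by ring,
    phi_mul k M h, Finset.sum_mul]
  refine Finset.sum_congr rfl fun s _ => by ring

theorem D_sq (k M : ℕ) (h : k < M) (x : ℤ) :
    D k x ^ 2 = ∑ s ∈ range M, phi s k * (dd s * (x ^ 2 + x) ^ s) := by
  rw [D_eq k M h, sq_expand k M h]
  refine Finset.sum_congr rfl fun s hs => ?_
  rw [dd, ← cc_sum x s M (mem_range.mp hs)]
  simp only [pow_add]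

def aZ (N : ℕ) : ℤ := ∑ i ∈ range (N + 1), (N.choose i : ℤ) * dd i * dd (N - i)

open Polynomial in
noncomputable def Hp (M : ℕ) : ℤ[X] := ∑ k ∈ range (M + 1), C (dd k ^ 2) * (X * (1 - 4 * X)) ^ k

open Polynomial in
theorem coeff_Hp (M N : ℕ) (h : N ≤ M) : (Hp M).coeff N = aZ N := by
  have e : (((Hp M).map (Int.castRingHom ℚ) : ℚ[X]) : PowerSeries ℚ) = Pool.Agent.KS6_47.Del.DelB.H M := by
    rw [← coeToPowerSeries.ringHom_apply, ← coe_mapRingHom, Hp, Pool.Agent.KS6_47.Del.DelB.H]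
    simp only [map_sum, map_mul, map_pow, map_sub, map_one, map_ofNat, coe_mapRingHom, map_X, map_C,
      coeToPowerSeries.ringHom_apply, coe_X, coe_C, Pool.Agent.KS6_47.Del.DelB.Z, dd,
      Pool.Agent.KS6_47.Del.DelB.d, map_natCast]
  have := Pool.Agent.KS6_47.Del.DelB.coeff_H M N h
  rw [← e, coeff_coe, coeff_map, Pool.Agent.KS6_47.Del.DelB.a,
    Finset.Nat.sum_antidiagonal_eq_sum_range_succ_mk] at this
  apply Int.cast_injective (α := ℚ)
  rw [aZ]
  push_cast
  refine this.trans (Finset.sum_congr rfl fun i hi => ?_)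
  have : i + (N - i) = N := by have := mem_range.mp hi; omega
  simp [this, dd, Pool.Agent.KS6_47.Del.DelB.d]


end Pool.Agent.KS6_47.Del.Cube
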